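import Mathlib

set_option autoImplicit false

/-!
Path covers of finite graphs: isolated vertices, and the deletion of one edge.
-/

namespace Pool.Agent.Q256.PC

/-- A path cover of `H`: a list of nonempty lists of vertices, in each of which consecutive vertices are
adjacent, such that every vertex occurs exactly once. -/
def IsCover {V : Type} (H : SimpleGraph V) (L : List (List V)) : Prop :=
  (∀ l ∈ L, l ≠ [] ∧ l.IsChain H.Adj) ∧ L.flatten.Nodup ∧ ∀ v : V, v ∈ L.flatten

/-- The path cover number. -/
noncomputable def mu {V : Type} (H : SimpleGraph V) : ℕ :=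
  sInf {m : ℕ | ∃ L : List (List V), IsCover H L ∧ L.length = m}

/-- the trivial cover -/
theorem exists_cover {V : Type} [Fintype V] (H : SimpleGraph V) :
    ∃ L : List (List V), IsCover H L := by
  classical
  refine ⟨(Finset.univ : Finset V).toList.map (fun v => [v]), ?_, ?_, ?_⟩
  · intro l hl
    rw [List.mem_map] at hl
    obtain ⟨v, _, rfl⟩ := hl
    exact ⟨by simp, List.isChain_singleton _⟩
  · have : ((Finset.univ : Finset V).toList.map (fun v => [v])).flatten = (Finset.univ : Finset V).toList := by
      rw [← List.flatMap_def]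
      simp
    rw [this]
    exact Finset.nodup_toList _
  · intro v
    have : ((Finset.univ : Finset V).toList.map (fun v => [v])).flatten = (Finset.univ : Finset V).toList := by
      rw [← List.flatMap_def]
      simp
    rw [this]
    simp

theorem mu_spec {V : Type} [Fintype V] (H : SimpleGraph V) :
    ∃ L : List (List V), IsCover H L ∧ L.length = mu H := by
  obtain ⟨L, hL⟩ := exists_cover H
  exact Nat.sInf_mem (s := {m : ℕ | ∃ L : List (List V), IsCover H L ∧ L.length = m}) ⟨L.length, L, hL, rfl⟩

theorem mu_le {V : Type} {H : SimpleGraph V} {L : List (List V)} (h : IsCover H L) :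
    mu H ≤ L.length := Nat.sInf_le ⟨L, h, rfl⟩

/-- Many isolated vertices force many paths. -/
theorem le_mu {V : Type} [Fintype V] (H : SimpleGraph V) (S : Finset V) (hS : ∀ v ∈ S, ∀ w, ¬ H.Adj v w)
    (hcard : S.card < Fintype.card V) : S.card + 1 ≤ mu H := by
  classical
  obtain ⟨L, ⟨h1, h2, h3⟩, hL⟩ := mu_spec H
  have hsing : ∀ v ∈ S, [v] ∈ L := by
    intro v hv
    obtain ⟨l, hl, hvl⟩ := List.mem_flatten.1 (h3 v)
    obtain ⟨hne, hch⟩ := h1 l hl
    obtain ⟨s, t, rfl⟩ := List.append_of_mem hvl
    have ht : t = [] := by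
      rcases t with _ | ⟨y, t⟩
      · rfl
      · exfalso
        rw [List.isChain_append] at hch
        have := hch.2.1
        rw [List.isChain_cons_cons] at this
        exact hS v hv y this.1
    have hs : s = [] := by
      rcases List.eq_nil_or_concat s with h | ⟨s', y, h⟩
      · exact h
      · exfalso
        subst h
        rw [List.isChain_append] at hch
        have := hch.2.2 y (by simp) v (by simp)
        exact hS v hv y this.symm
    subst hs; subst ht
    simpa using hl
  obtain ⟨u, hu⟩ : ∃ u, u ∉ S := by
    by_contra hcon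
    push Not at hcon
    have : S = Finset.univ := Finset.eq_univ_iff_forall.2 hcon
    rw [this, Finset.card_univ] at hcard
    exact lt_irrefl _ hcard
  obtain ⟨lu, hlu, hulu⟩ := List.mem_flatten.1 (h3 u)
  have hsub : insert lu (S.image (fun v => [v])) ⊆ L.toFinset := by
    intro x hx
    rw [Finset.mem_insert, Finset.mem_image] at hx
    rw [List.mem_toFinset]
    rcases hx with rfl | ⟨v, hv, rfl⟩
    · exact hlu
    · exact hsing v hv
  have hnot : lu ∉ S.image (fun v => [v]) := by
    rw [Finset.mem_image]
    rintro ⟨v, hv, rfl⟩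
    rw [List.mem_singleton] at hulu
    exact hu (hulu ▸ hv)
  have hc := Finset.card_le_card hsub
  rw [Finset.card_insert_of_notMem hnot, Finset.card_image_of_injective _ (fun a b h => by simpa using h)] at hc
  exact hL ▸ hc.trans (List.toFinset_card_le L)

/-- a chain avoiding one of the two ends of the deleted edge stays a chain -/
theorem chain_of_notMem {V : Type} (H : SimpleGraph V) (a b x : V) (hx : x = a ∨ x = b) (l : List V)
    (hl : l.IsChain H.Adj) (hxl : x ∉ l) : l.IsChain (H.deleteEdges {s(a, b)}).Adj := by
  induction l with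
  | nil => exact List.isChain_nil
  | cons y t ih =>
    rcases t with _ | ⟨z, t⟩
    · exact List.isChain_singleton _
    · rw [List.isChain_cons_cons] at hl ⊢
      refine ⟨?_, ih hl.2 (fun h => hxl (List.mem_cons_of_mem _ h))⟩
      rw [SimpleGraph.deleteEdges_adj]
      refine ⟨hl.1, ?_⟩
      rw [Set.mem_singleton_iff]
      intro h
      rw [Sym2.eq_iff] at h
      have hy : x ≠ y := fun h' => hxl (h' ▸ List.mem_cons_self)
      have hz : x ≠ z := fun h' => hxl (h' ▸ (by simp))
      rcases h with ⟨h1, h2⟩ | ⟨h1, h2⟩
      · rcases hx with rfl | rfl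
        · exact hy h1.symm
        · exact hz h2.symm
      · rcases hx with rfl | rfl
        · exact hz h2.symm
        · exact hy h1.symm

/-- splitting a chain at the deleted edge -/
theorem split_chain {V : Type} (H : SimpleGraph V) (a b : V) (l : List V) (hne : l ≠ [])
    (hl : l.IsChain H.Adj) (hnd : l.Nodup) :
    l.IsChain (H.deleteEdges {s(a, b)}).Adj ∨ (a ∈ l ∧ b ∈ l ∧ ∃ l1 l2 : List V, l1 ≠ [] ∧ l2 ≠ [] ∧ l = l1 ++ l2 ∧
      l1.IsChain (H.deleteEdges {s(a, b)}).Adj ∧ l2.IsChain (H.deleteEdges {s(a, b)}).Adj) := by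
  induction l with
  | nil => exact absurd rfl hne
  | cons y t ih =>
    rcases t with _ | ⟨z, t⟩
    · exact Or.inl (List.isChain_singleton _)
    · rw [List.isChain_cons_cons] at hl
      have hnd' := (List.nodup_cons.1 hnd)
      by_cases he : s(y, z) = s(a, b)
      · right
        have hab : (y = a ∧ z = b) ∨ (y = b ∧ z = a) := by
          rw [Sym2.eq_iff] at he; exact he
        refine ⟨?_, ?_, [y], z :: t, by simp, by simp, rfl, List.isChain_singleton _, ?_⟩
        · rcases hab with ⟨h1, h2⟩ | ⟨h1, h2⟩
          · subst h1; simp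
          · subst h2; simp
        · rcases hab with ⟨h1, h2⟩ | ⟨h1, h2⟩
          · subst h2; simp
          · subst h1; simp
        · exact chain_of_notMem H a b y (by rcases hab with h | h; exacts [Or.inl h.1, Or.inr h.1]) _ hl.2 hnd'.1
      · have hyz : (H.deleteEdges {s(a, b)}).Adj y z := by
          rw [SimpleGraph.deleteEdges_adj]
          exact ⟨hl.1, he⟩
        rcases ih (by simp) hl.2 hnd'.2 with h | ⟨ha, hb, l1, l2, h1, h2, h3, h4, h5⟩
        · left
          rw [List.isChain_cons_cons]
          exact ⟨hyz, h⟩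
        · right
          refine ⟨List.mem_cons_of_mem _ ha, List.mem_cons_of_mem _ hb, y :: l1, l2, by simp, h2, by rw [h3]; rfl, ?_, h5⟩
          rcases l1 with _ | ⟨z', l1⟩
          · exact absurd rfl h1
          · have : z = z' := by
              simp only [List.cons_append, List.cons.injEq] at h3
              exact h3.1
            subst this
            rw [List.isChain_cons_cons]
            exact ⟨hyz, h4⟩

/-- Deleting one edge raises the path cover number by at most one. -/
theorem mu_deleteEdge {V : Type} [Fintype V] (H : SimpleGraph V) (e : Sym2 V) :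
    mu (H.deleteEdges {e}) ≤ mu H + 1 := by
  classical
  induction e using Sym2.inductionOn with
  | hf a b =>
  obtain ⟨L, ⟨h1, h2, h3⟩, hL⟩ := mu_spec H
  have hnd : ∀ l ∈ L, l.Nodup := (List.nodup_flatten.1 h2).1
  by_cases hall : ∀ l ∈ L, l.IsChain (H.deleteEdges {s(a, b)}).Adj
  · exact (mu_le ⟨fun l hl => ⟨(h1 l hl).1, hall l hl⟩, h2, h3⟩).trans (by omega)
  · push Not at hall
    obtain ⟨l, hl, hnc⟩ := hall
    rcases split_chain H a b l (h1 l hl).1 (h1 l hl).2 (hnd l hl) with h | ⟨ha, hb, l1, l2, hl1, hl2, hll, hc1, hc2⟩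
    · exact absurd h hnc
    obtain ⟨s, t, rfl⟩ := List.append_of_mem hl
    have hfl : (s ++ l1 :: l2 :: t).flatten = (s ++ l :: t).flatten := by
      rw [hll]; simp
    have hother : ∀ l' ∈ s ++ t, a ∉ l' := by
      intro l' hl' hal'
      rw [List.flatten_append, List.flatten_cons, List.nodup_append] at h2
      obtain ⟨h21, h22, h23⟩ := h2
      rw [List.mem_append] at hl'
      rcases hl' with hl' | hl'
      · exact h23 a (List.mem_flatten.2 ⟨l', hl', hal'⟩) a (List.mem_append_left _ ha) rfl
      · rw [List.nodup_append] at h22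
        exact h22.2.2 a ha a (List.mem_flatten.2 ⟨l', hl', hal'⟩) rfl
    have hcov : IsCover (H.deleteEdges {s(a, b)}) (s ++ l1 :: l2 :: t) := by
      refine ⟨?_, by rw [hfl]; exact h2, fun v => by rw [hfl]; exact h3 v⟩
      intro l' hl'
      rw [List.mem_append, List.mem_cons, List.mem_cons] at hl'
      rcases hl' with hl' | rfl | rfl | hl'
      · exact ⟨(h1 l' (by simp [hl'])).1, chain_of_notMem H a b a (Or.inl rfl) _ (h1 l' (by simp [hl'])).2
          (hother l' (by simp [hl']))⟩
      · exact ⟨hl1, hc1⟩
      · exact ⟨hl2, hc2⟩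
      · exact ⟨(h1 l' (by simp [hl'])).1, chain_of_notMem H a b a (Or.inl rfl) _ (h1 l' (by simp [hl'])).2
          (hother l' (by simp [hl']))⟩
    have := mu_le hcov
    simp only [List.length_append, List.length_cons] at this hL
    omega

/-- An intermediate value theorem for the path cover number. -/
theorem exists_exact {V : Type} [Fintype V] (G : SimpleGraph V) (k : ℕ) (F : Finset (Sym2 V))
    (h0 : mu G ≤ k) (h1 : k ≤ mu (G.deleteEdges F)) :
    ∃ F' ⊆ F, mu (G.deleteEdges F') = k := by
  classical
  induction F using Finset.induction_on with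
  | empty =>
    refine ⟨∅, subset_rfl, le_antisymm ?_ h1⟩
    simpa using h0
  | insert e F he ih =>
    by_cases hk : k ≤ mu (G.deleteEdges F)
    · obtain ⟨F', hF', h⟩ := ih hk
      exact ⟨F', hF'.trans (Finset.subset_insert _ _), h⟩
    · refine ⟨insert e F, subset_rfl, le_antisymm ?_ h1⟩
      have h2 := mu_deleteEdge (G.deleteEdges F) e
      rw [SimpleGraph.deleteEdges_deleteEdges] at h2
      have h3 : ((F : Set (Sym2 V)) ∪ {e}) = ((insert e F : Finset (Sym2 V)) : Set (Sym2 V)) := by
        rw [Finset.coe_insert, Set.union_singleton]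
      rw [h3] at h2
      omega

end Pool.Agent.Q256.PC
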