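import Mathlib
import Pool.Agent.Q256.PC.Path
import Pool.Agent.W381.HC.Genf

set_option autoImplicit false

/-!
Degrees of the binomial random graph.
-/

namespace Pool.Agent.Q256.PC

open Pool.Agent.W845.PM Pool.Agent.W845.HC
open Filter Topology
open scoped Classical

/-- the star at `v` -/
def star {n : ℕ} (v : Fin n) : SimpleGraph (Fin n) where
  Adj a b := a ≠ b ∧ (a = v ∨ b = v)
  symm := ⟨fun _ _ h => ⟨h.1.symm, h.2.symm⟩⟩
  loopless := ⟨fun _ h => h.1 rfl⟩

/-- the degree -/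
noncomputable def dv {n : ℕ} (G : SimpleGraph (Fin n)) (v : Fin n) : ℕ := (G.neighborSet v).ncard

theorem ec_star_inf {n : ℕ} (G : SimpleGraph (Fin n)) (v : Fin n) : ec (star v ⊓ G) = dv G v := by
  unfold ec dv
  have h : (star v ⊓ G).edgeSet = (fun w => s(v, w)) '' (G.neighborSet v) := by
    ext e
    induction e using Sym2.inductionOn with
    | hf a b =>
      rw [SimpleGraph.mem_edgeSet, SimpleGraph.inf_adj]
      constructor
      · rintro ⟨⟨h1, h2⟩, h3⟩
        rcases h2 with rfl | rfl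
        · exact ⟨b, h3, rfl⟩
        · exact ⟨a, h3.symm, Sym2.eq_swap⟩
      · rintro ⟨w, hw, hww⟩
        rw [SimpleGraph.mem_neighborSet] at hw
        have := hw
        simp only [Sym2.eq_iff] at hww
        rcases hww with ⟨h1, h2⟩ | ⟨h1, h2⟩
        · subst h1; subst h2
          exact ⟨⟨hw.ne, Or.inl rfl⟩, hw⟩
        · subst h1; subst h2
          exact ⟨⟨hw.symm.ne, Or.inr rfl⟩, hw.symm⟩
  rw [h]
  refine Set.InjOn.ncard_image ?_
  intro x hx y hy hxy
  simp only [Sym2.eq_iff] at hxy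
  rcases hxy with ⟨_, h⟩ | ⟨h1, h2⟩
  · exact h
  · rw [h2, ← h1]

theorem dv_top {n : ℕ} (v : Fin n) : dv (⊤ : SimpleGraph (Fin n)) v = n - 1 := by
  unfold dv
  have : (⊤ : SimpleGraph (Fin n)).neighborSet v = ((Finset.univ.erase v : Finset (Fin n)) : Set (Fin n)) := by
    ext w
    simp [SimpleGraph.mem_neighborSet, eq_comm]
  rw [this, Set.ncard_coe_finset, Finset.card_erase_of_mem (Finset.mem_univ _), Finset.card_univ, Fintype.card_fin]

theorem ec_star {n : ℕ} (v : Fin n) : ec (star v) = n - 1 := by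
  have := ec_star_inf (⊤ : SimpleGraph (Fin n)) v
  rw [inf_top_eq, dv_top] at this
  exact this

/-- the generating function of a degree -/
theorem genf_deg (n : ℕ) (p x : ℝ) (v : Fin n) :
    EG n p (fun G => x ^ (dv G v)) = (1 - p + p * x) ^ (n - 1) := by
  have h := Pool.Agent.W381.HC.genf n p x (star v)
  rw [ec_star] at h
  rw [← h]
  refine EG_congr fun G => ?_
  rw [ec_star_inf]

/-- probability -/
noncomputable def Pr (n : ℕ) (p : ℝ) (P : SimpleGraph (Fin n) → Prop) : ℝ :=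
  EG n p (fun G => if P G then (1 : ℝ) else 0)

theorem Pr_compl {n : ℕ} {p : ℝ} (P : SimpleGraph (Fin n) → Prop) :
    Pr n p P = 1 - Pr n p (fun G => ¬ P G) := by
  have h : Pr n p P + Pr n p (fun G => ¬ P G) = 1 := by
    unfold Pr
    rw [← EG_add]
    refine (EG_congr fun G => ?_).trans (oneT n p).1
    by_cases hP : P G
    · rw [if_pos hP, if_neg (not_not.2 hP), add_zero]
    · rw [if_neg hP, if_pos hP, zero_add]
  linarith

theorem Pr_mono {n : ℕ} {p : ℝ} (h0 : 0 ≤ p) (h1 : p ≤ 1) {P Q : SimpleGraph (Fin n) → Prop}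
    (h : ∀ G, P G → Q G) : Pr n p P ≤ Pr n p Q := by
  refine EG_mono h0 h1 fun G => ?_
  by_cases hP : P G
  · simp [hP, h G hP]
  · simp only [hP, if_false]
    split_ifs <;> norm_num

theorem Pr_nonneg {n : ℕ} {p : ℝ} (h0 : 0 ≤ p) (h1 : p ≤ 1) (P : SimpleGraph (Fin n) → Prop) :
    0 ≤ Pr n p P := by
  refine EG_nonneg h0 h1 fun G => ?_
  split_ifs <;> norm_num

theorem Pr_exists_le {n : ℕ} {p : ℝ} (h0 : 0 ≤ p) (h1 : p ≤ 1) (P : Fin n → SimpleGraph (Fin n) → Prop)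
    (c : ℝ) (hc : ∀ v, Pr n p (P v) ≤ c) : Pr n p (fun G => ∃ v, P v G) ≤ n * c := by
  have h : Pr n p (fun G => ∃ v, P v G) ≤ ∑ v : Fin n, Pr n p (P v) := by
    unfold Pr
    rw [← EG_sum]
    refine EG_mono h0 h1 fun G => ?_
    split_ifs with hex
    · obtain ⟨v, hv⟩ := hex
      calc (1 : ℝ) = if P v G then (1 : ℝ) else 0 := by rw [if_pos hv]
        _ ≤ _ := Finset.single_le_sum (f := fun v => if P v G then (1 : ℝ) else 0)
          (fun i _ => by split_ifs <;> norm_num) (Finset.mem_univ v)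
    · exact Finset.sum_nonneg fun i _ => by split_ifs <;> norm_num
  refine h.trans ((Finset.sum_le_sum fun v _ => hc v).trans ?_)
  simp

theorem one_add_pow_le {m : ℕ} {p x : ℝ} (h0 : 0 ≤ p) (h1 : p ≤ 1) (hx : 0 ≤ x) :
    (1 - p + p * x) ^ m ≤ Real.exp (m * p * (x - 1)) := by
  have h2 : 0 ≤ 1 - p + p * x := by
    have : 0 ≤ p * x := mul_nonneg h0 hx
    linarith
  have h3 : 1 - p + p * x ≤ Real.exp (p * (x - 1)) := by
    have := Real.add_one_le_exp (p * (x - 1))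
    linarith
  calc (1 - p + p * x) ^ m ≤ (Real.exp (p * (x - 1))) ^ m := pow_le_pow_left₀ h2 h3 m
    _ = Real.exp (m * p * (x - 1)) := by rw [← Real.exp_nat_mul]; ring_nf

/-- upper tail -/
theorem upper_tail {n : ℕ} {p : ℝ} (h0 : 0 ≤ p) (h1 : p ≤ 1) (v : Fin n) (ε : ℝ) (hε0 : 0 ≤ ε) (hε1 : ε ≤ 1) :
    Pr n p (fun G => (1 + ε) * ((n - 1 : ℕ) * p) ≤ dv G v) ≤ Real.exp (-(ε ^ 2 / 4) * ((n - 1 : ℕ) * p)) := by
  set M : ℝ := ((n - 1 : ℕ) : ℝ) * p with hM
  have hM0 : 0 ≤ M := mul_nonneg (Nat.cast_nonneg _) h0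
  set s : ℝ := ε / 2 with hs
  have hs0 : 0 ≤ s := by positivity
  have hmark : Pr n p (fun G => (1 + ε) * M ≤ dv G v) ≤
      Real.exp (-(s * ((1 + ε) * M))) * EG n p (fun G => (Real.exp s) ^ (dv G v)) := by
    unfold Pr
    rw [← EG_mul_left]
    refine EG_mono h0 h1 fun G => ?_
    rw [← Real.exp_nat_mul, ← Real.exp_add]
    split_ifs with h
    · refine Real.one_le_exp ?_
      nlinarith
    · positivity
  rw [genf_deg] at hmark
  refine hmark.trans ?_
  have h2 : (1 - p + p * Real.exp s) ^ (n - 1) ≤ Real.exp (M * (s + s ^ 2)) := by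
    refine (one_add_pow_le h0 h1 (Real.exp_pos _).le).trans ?_
    rw [Real.exp_le_exp, hM]
    refine mul_le_mul_of_nonneg_left ?_ hM0
    have := (abs_le.1 (Real.abs_exp_sub_one_sub_id_le (x := s) (by rw [abs_of_nonneg hs0]; rw [hs]; linarith))).2
    linarith
  refine (mul_le_mul_of_nonneg_left h2 (Real.exp_pos _).le).trans ?_
  rw [← Real.exp_add, Real.exp_le_exp]
  have : -(s * ((1 + ε) * M)) + M * (s + s ^ 2) = -(ε ^ 2 / 4) * M := by rw [hs]; ring
  rw [this]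

/-- lower tail -/
theorem lower_tail {n : ℕ} {p : ℝ} (h0 : 0 ≤ p) (h1 : p ≤ 1) (v : Fin n) (ε : ℝ) (hε0 : 0 ≤ ε) (hε1 : ε ≤ 1) :
    Pr n p (fun G => (dv G v : ℝ) ≤ (1 - ε) * ((n - 1 : ℕ) * p)) ≤
      Real.exp (-(ε ^ 2 / 4) * ((n - 1 : ℕ) * p)) := by
  set M : ℝ := ((n - 1 : ℕ) : ℝ) * p with hM
  have hM0 : 0 ≤ M := mul_nonneg (Nat.cast_nonneg _) h0
  set s : ℝ := ε / 2 with hs
  have hs0 : 0 ≤ s := by positivity
  have hmark : Pr n p (fun G => (dv G v : ℝ) ≤ (1 - ε) * M) ≤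
      Real.exp (s * ((1 - ε) * M)) * EG n p (fun G => (Real.exp (-s)) ^ (dv G v)) := by
    unfold Pr
    rw [← EG_mul_left]
    refine EG_mono h0 h1 fun G => ?_
    rw [← Real.exp_nat_mul, ← Real.exp_add]
    split_ifs with h
    · refine Real.one_le_exp ?_
      nlinarith
    · positivity
  rw [genf_deg] at hmark
  refine hmark.trans ?_
  have h2 : (1 - p + p * Real.exp (-s)) ^ (n - 1) ≤ Real.exp (M * (-s + s ^ 2)) := by
    refine (one_add_pow_le h0 h1 (Real.exp_pos _).le).trans ?_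
    rw [Real.exp_le_exp, hM]
    refine mul_le_mul_of_nonneg_left ?_ hM0
    have := (abs_le.1 (Real.abs_exp_sub_one_sub_id_le (x := -s) (by rw [abs_neg, abs_of_nonneg hs0]; rw [hs]; linarith))).2
    have h3 : (-s) ^ 2 = s ^ 2 := by ring
    linarith
  refine (mul_le_mul_of_nonneg_left h2 (Real.exp_pos _).le).trans ?_
  rw [← Real.exp_add, Real.exp_le_exp]
  have : s * ((1 - ε) * M) + M * (-s + s ^ 2) = -(ε ^ 2 / 4) * M := by rw [hs]; ring
  rw [this]

/-- very small degrees -/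
theorem deg_le_two {n : ℕ} {p : ℝ} (h0 : 0 ≤ p) (h1 : p ≤ 1) (v : Fin n) (hnp : 1 ≤ n * p) :
    Pr n p (fun G => dv G v ≤ 2) ≤ (n * p) ^ 2 * Real.exp (2 - n * p) := by
  set t : ℝ := n * p with ht
  have ht0 : 0 < t := by linarith
  have hmark : Pr n p (fun G => dv G v ≤ 2) ≤ t ^ 2 * EG n p (fun G => (t⁻¹) ^ (dv G v)) := by
    unfold Pr
    rw [← EG_mul_left]
    refine EG_mono h0 h1 fun G => ?_
    split_ifs with h
    · rw [inv_pow, ← div_eq_mul_inv, le_div_iff₀ (by positivity), one_mul]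
      exact pow_le_pow_right₀ hnp h
    · positivity
  rw [genf_deg] at hmark
  refine hmark.trans (mul_le_mul_of_nonneg_left ?_ (by positivity))
  refine (one_add_pow_le h0 h1 (by positivity)).trans ?_
  rw [Real.exp_le_exp]
  have hn : 1 ≤ n := by
    rcases Nat.eq_zero_or_pos n with h | h
    · rw [ht, h] at ht0; simp at ht0
    · exact h
  have h5 : ((n - 1 : ℕ) : ℝ) * p = t - p := by
    rw [Nat.cast_sub hn, ht]; push_cast; ring
  rw [h5]
  have h6 : t * t⁻¹ = 1 := mul_inv_cancel₀ ht0.ne'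
  have h7 : 0 ≤ p * t⁻¹ := by positivity
  nlinarith

end Pool.Agent.Q256.PC
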