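import Mathlib
import Pool.Agent.Q256.PC.Rand

set_option autoImplicit false

/-!
Isolating `k - 1` vertices: the number of deletions needed for the path cover number `k`.
-/

namespace Pool.Agent.Q256.PC

open Pool.Agent.W845.PM Pool.Agent.W845.HC
open Filter Topology
open scoped Classical

/-- the minimum degree -/
noncomputable def dmin {n : ℕ} (G : SimpleGraph (Fin n)) : ℕ := ⨅ v, dv G v

/-- the least number of edges whose deletion makes the path cover number equal to `k` (`⊤` if this is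
impossible) -/
noncomputable def fk {n : ℕ} (k : ℕ) (G : SimpleGraph (Fin n)) : ℕ∞ :=
  ⨅ F : {F : Set (Sym2 (Fin n)) // F ⊆ G.edgeSet ∧ mu (G.deleteEdges F) = k}, F.1.encard

theorem mu_anti {V : Type} [Fintype V] {G H : SimpleGraph V} (h : H ≤ G) : mu G ≤ mu H := by
  obtain ⟨L, ⟨h1, h2, h3⟩, hL⟩ := mu_spec H
  rw [← hL]
  exact mu_le ⟨fun l hl => ⟨(h1 l hl).1, (h1 l hl).2.imp (fun a b hab => h hab)⟩, h2, h3⟩

/-- the edges at the vertices of `S` -/
noncomputable def eS {n : ℕ} (G : SimpleGraph (Fin n)) (S : Finset (Fin n)) : Finset (Sym2 (Fin n)) :=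
  S.biUnion (fun v => (Finset.univ.filter (fun w => G.Adj v w)).image (fun w => s(v, w)))

theorem eS_card {n : ℕ} (G : SimpleGraph (Fin n)) (S : Finset (Fin n)) :
    (eS G S).card ≤ ∑ v ∈ S, dv G v := by
  unfold eS
  refine Finset.card_biUnion_le.trans (Finset.sum_le_sum fun v _ => ?_)
  refine Finset.card_image_le.trans ?_
  unfold dv
  have : G.neighborSet v = ((Finset.univ.filter (fun w => G.Adj v w) : Finset (Fin n)) : Set (Fin n)) := by
    ext w; simp
  rw [this, Set.ncard_coe_finset]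

theorem eS_sub {n : ℕ} (G : SimpleGraph (Fin n)) (S : Finset (Fin n)) :
    ((eS G S : Finset (Sym2 (Fin n))) : Set (Sym2 (Fin n))) ⊆ G.edgeSet := by
  intro e he
  unfold eS at he
  simp only [Finset.coe_biUnion, Finset.mem_coe, Set.mem_iUnion, Finset.coe_image, Set.mem_image,
    Finset.mem_filter, Finset.mem_univ, true_and] at he
  obtain ⟨v, _, w, hw, rfl⟩ := he
  exact hw

theorem le_mu_eS {n : ℕ} (G : SimpleGraph (Fin n)) (S : Finset (Fin n)) (hS : S.card < n) :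
    S.card + 1 ≤ mu (G.deleteEdges (eS G S : Finset (Sym2 (Fin n)))) := by
  refine le_mu _ S ?_ (by rwa [Fintype.card_fin])
  intro v hv w hvw
  rw [SimpleGraph.deleteEdges_adj] at hvw
  apply hvw.2
  unfold eS
  simp only [Finset.coe_biUnion, Finset.mem_coe, Set.mem_iUnion, Finset.coe_image, Set.mem_image,
    Finset.mem_filter, Finset.mem_univ, true_and]
  exact ⟨v, hv, w, hvw.1, rfl⟩

/-- the deterministic part -/
theorem det {n : ℕ} (G : SimpleGraph (Fin n)) (k b : ℕ) (S : Finset (Fin n)) (hS : S.card + 1 = k)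
    (hn : S.card < n) (hb : ∑ v ∈ S, dv G v < b) :
    fk k G ≠ (b : ℕ∞) ∧ (mu G ≤ k → fk k G < (b : ℕ∞)) := by
  have key : mu G ≤ k → fk k G < (b : ℕ∞) := by
    intro hk
    obtain ⟨F', hF', hmu⟩ := exists_exact G k (eS G S) hk (hS ▸ le_mu_eS G S hn)
    have h1 : fk k G ≤ ((F' : Set (Sym2 (Fin n)))).encard :=
      iInf_le (fun F : {F : Set (Sym2 (Fin n)) // F ⊆ G.edgeSet ∧ mu (G.deleteEdges F) = k} => F.1.encard)
        ⟨(F' : Set (Sym2 (Fin n))), fun e he => eS_sub G S (hF' he), hmu⟩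
    rw [Set.encard_coe_eq_coe_finsetCard] at h1
    refine h1.trans_lt ?_
    have h2 := Finset.card_le_card hF'
    have h3 := eS_card G S
    exact_mod_cast (by omega : F'.card < b)
  refine ⟨?_, key⟩
  by_cases hk : mu G ≤ k
  · exact (key hk).ne
  · have : fk k G = ⊤ := by
      unfold fk
      rw [iInf_eq_top]
      rintro ⟨F, hF, hmu⟩
      exfalso
      have := mu_anti (G.deleteEdges_le F)
      omega
    rw [this]
    exact ENat.top_ne_natCast b

theorem dmin_le {n : ℕ} (G : SimpleGraph (Fin n)) (v : Fin n) : dmin G ≤ dv G v :=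
  Nat.sInf_le ⟨v, rfl⟩

theorem dmin_mem {n : ℕ} (G : SimpleGraph (Fin n)) (hn : 0 < n) : ∃ v, dv G v = dmin G := by
  have : Nonempty (Fin n) := ⟨⟨0, hn⟩⟩
  exact ciInf_mem (fun v => dv G v)

/-- the event -/
def Ev (k : ℕ) {n : ℕ} (G : SimpleGraph (Fin n)) : Prop :=
  fk k G ≠ ((k * (dmin G - 1) : ℕ) : ℕ∞) ∧ (mu G ≤ k → fk k G < ((k * (dmin G - 1) : ℕ) : ℕ∞))

/-- good concentration of the degrees implies the event -/
theorem ev_of_conc (k : ℕ) (hk : 2 ≤ k) {n : ℕ} (hn : k ≤ n) (M : ℝ) (hM : 2 * k ≤ M) (G : SimpleGraph (Fin n))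
    (h1 : ∀ v, (dv G v : ℝ) ≤ (1 + 1 / (4 * k)) * M) (h2 : ∀ v, (1 - 1 / (4 * k)) * M ≤ (dv G v : ℝ)) :
    Ev k G := by
  obtain ⟨S, hS⟩ : ∃ S : Finset (Fin n), S.card = k - 1 := by
    obtain ⟨S, _, hS⟩ := Finset.exists_subset_card_eq (s := (Finset.univ : Finset (Fin n))) (n := k - 1)
      (by rw [Finset.card_univ, Fintype.card_fin]; omega)
    exact ⟨S, hS⟩
  refine det G k _ S (by omega) (by omega) ?_
  obtain ⟨v, hv⟩ := dmin_mem G (by omega)
  have hk0 : (0 : ℝ) < k := by exact_mod_cast (by omega : 0 < k)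
  have hk2 : (2 : ℝ) ≤ k := by exact_mod_cast hk
  have h3 : ((∑ v ∈ S, dv G v : ℕ) : ℝ) ≤ (k - 1) * ((1 + 1 / (4 * k)) * M) := by
    push_cast
    calc (∑ v ∈ S, (dv G v : ℝ)) ≤ ∑ v ∈ S, (1 + 1 / (4 * k)) * M := Finset.sum_le_sum fun v _ => h1 v
      _ = (k - 1) * ((1 + 1 / (4 * k)) * M) := by
        rw [Finset.sum_const, hS, nsmul_eq_mul, Nat.cast_sub (by omega)]; push_cast; ring
  have h4 : (1 - 1 / (4 * k)) * M ≤ (dmin G : ℝ) := hv ▸ h2 v
  have h5 : (1 : ℝ) ≤ dmin G := by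
    have : (1 : ℝ) / (4 * k) ≤ 1 / 8 := by
      apply one_div_le_one_div_of_le <;> linarith
    nlinarith
  have h6 : 1 ≤ dmin G := by exact_mod_cast h5
  have h7 : ((∑ v ∈ S, dv G v : ℕ) : ℝ) < ((k * (dmin G - 1) : ℕ) : ℝ) := by
    rw [Nat.cast_mul, Nat.cast_sub h6, Nat.cast_one]
    refine lt_of_le_of_lt h3 ?_
    refine lt_of_lt_of_le ?_ (mul_le_mul_of_nonneg_left (sub_le_sub_right h4 1) hk0.le)
    obtain ⟨a, ha⟩ : ∃ a : ℝ, a = 1 / (4 * k) := ⟨_, rfl⟩
    rw [← ha]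
    have h8 : (k : ℝ) * a = 1 / 4 := by rw [ha]; field_simp
    have h9 : 0 < a := by rw [ha]; positivity
    have h10 : (k - 1 : ℝ) * ((1 + a) * M) = k * M + (k * a) * M - M - a * M := by ring
    have h11 : (k : ℝ) * ((1 - a) * M - 1) = k * M - (k * a) * M - k := by ring
    rw [h10, h11, h8]
    have : 0 < a * M := mul_pos h9 (by linarith)
    linarith
  exact_mod_cast h7

end Pool.Agent.Q256.PC
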