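import Mathlib
import Pool.Agent.Q256.PC.Main

set_option autoImplicit false

/-!
The asked identity fails with high probability.
-/

namespace Pool.Agent.Q256.PC

open Pool.Agent.W845.PM Pool.Agent.W845.HC
open Filter Topology
open scoped Classical

theorem ev_two {n : ℕ} (G : SimpleGraph (Fin n)) (hn : 2 ≤ n) (h : ∀ v, 3 ≤ dv G v) : Ev 2 G := by
  obtain ⟨v, hv⟩ := dmin_mem G (by omega)
  refine det G 2 _ {v} (by simp) (by rw [Finset.card_singleton]; omega) ?_
  rw [Finset.sum_singleton, hv]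
  have := h v
  omega

theorem ite_or_le (A B : Prop) [Decidable A] [Decidable B] [Decidable (A ∨ B)] : (if A ∨ B then (1 : ℝ) else 0) ≤ (if A then (1 : ℝ) else 0) + (if B then (1 : ℝ) else 0) := by
  by_cases hA : A <;> by_cases hB : B <;> simp [hA, hB]

theorem expo_real {a t w : ℝ} (ha : 1 ≤ a) (hw : w = t - a - 2 * Real.log a) (hw1 : 1 ≤ w) :
    a + 2 * Real.log t + 2 - t ≤ 2 * Real.log 4 + 2 + (2 * Real.log w - w) := by
  have hloga : Real.log a ≤ a := (Real.log_le_sub_one_of_pos (by linarith)).trans (by linarith)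
  have hloga0 : 0 ≤ Real.log a := Real.log_nonneg ha
  have htw : t ≤ 4 * (a * w) := by nlinarith
  have ht0 : 0 < t := by linarith
  have h3 : Real.log t ≤ Real.log 4 + (Real.log a + Real.log w) := by
    refine (Real.log_le_log ht0 htw).trans (le_of_eq ?_)
    rw [Real.log_mul (by norm_num) (by positivity), Real.log_mul (by positivity) (by positivity)]
  linarith

theorem pr_a (k : ℕ) (hk : 2 ≤ k) {n : ℕ} (hn : k ≤ n) {p : ℝ} (h0 : 0 ≤ p) (h1 : p ≤ 1)
    (hlog : 100 * k ^ 2 * Real.log n ≤ n * p) (hM : 2 * k + 1 ≤ n * p) :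
    Pr n p (fun G => ¬ Ev k G) ≤ 2 * Real.exp 1 * Real.exp (-(Real.log n / 2)) := by
  have hk0 : (0 : ℝ) < k := by exact_mod_cast (by omega : 0 < k)
  have hk2 : (2 : ℝ) ≤ k := by exact_mod_cast hk
  have hn0 : 0 < n := by omega
  have hn1 : (0 : ℝ) < n := by exact_mod_cast hn0
  obtain ⟨ε, hε⟩ : ∃ ε : ℝ, ε = 1 / (4 * k) := ⟨_, rfl⟩
  have hε0 : 0 ≤ ε := by rw [hε]; positivity
  have hε1 : ε ≤ 1 := by
    rw [hε, div_le_one (by positivity)]
    linarith
  obtain ⟨M, hMd⟩ : ∃ M : ℝ, M = ((n - 1 : ℕ) : ℝ) * p := ⟨_, rfl⟩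
  have hMe : M = n * p - p := by
    rw [hMd, Nat.cast_sub (by omega)]; push_cast; ring
  have hM2 : 2 * k ≤ M := by rw [hMe]; linarith
  have h2 : Pr n p (fun G => ¬ Ev k G) ≤ Pr n p (fun G => ∃ v, ((1 + ε) * M ≤ dv G v ∨ (dv G v : ℝ) ≤ (1 - ε) * M)) := by
    refine Pr_mono h0 h1 fun G hG => ?_
    by_contra hcon
    push Not at hcon
    exact hG (ev_of_conc k hk hn M hM2 G (fun v => hε ▸ (hcon v).1.le) (fun v => hε ▸ (hcon v).2.le))
  refine h2.trans ?_
  have h3 : ∀ v : Fin n, Pr n p (fun G => ((1 + ε) * M ≤ dv G v ∨ (dv G v : ℝ) ≤ (1 - ε) * M)) ≤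
      2 * Real.exp (-(ε ^ 2 / 4) * M) := by
    intro v
    have h4 : Pr n p (fun G => ((1 + ε) * M ≤ dv G v ∨ (dv G v : ℝ) ≤ (1 - ε) * M)) ≤
        Pr n p (fun G => (1 + ε) * M ≤ dv G v) + Pr n p (fun G => (dv G v : ℝ) ≤ (1 - ε) * M) := by
      unfold Pr
      rw [← EG_add]
      refine EG_mono h0 h1 fun G => ?_
      have := @ite_or_le ((1 + ε) * M ≤ dv G v) ((dv G v : ℝ) ≤ (1 - ε) * M) (Classical.propDecidable _)
        (Classical.propDecidable _) (Classical.propDecidable _)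
      exact this
    have h5 := upper_tail h0 h1 v ε hε0 hε1
    have h6 := lower_tail h0 h1 v ε hε0 hε1
    rw [← hMd] at h5 h6
    linarith
  refine (Pr_exists_le h0 h1 _ _ h3).trans ?_
  have h7 : -(ε ^ 2 / 4) * M ≤ 1 - 3 / 2 * Real.log n := by
    have h8 : ε ^ 2 / 4 = 1 / (64 * k ^ 2) := by rw [hε]; field_simp; norm_num
    have hlog0 : 0 ≤ Real.log n := Real.log_natCast_nonneg n
    rw [h8, hMe, neg_mul, neg_le, one_div, inv_mul_eq_div, le_div_iff₀ (by positivity)]
    have hk4 : (4 : ℝ) ≤ (k : ℝ) ^ 2 := by nlinarith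
    nlinarith [mul_nonneg hlog0 (sq_nonneg (k : ℝ))]
  have h9 : (n : ℝ) = Real.exp (Real.log n) := (Real.exp_log hn1).symm
  calc (n : ℝ) * (2 * Real.exp (-(ε ^ 2 / 4) * M))
      ≤ n * (2 * Real.exp (1 - 3 / 2 * Real.log n)) := by
        have := Real.exp_le_exp.2 h7
        have h10 : (0 : ℝ) ≤ n := hn1.le
        exact mul_le_mul_of_nonneg_left (by linarith) h10
    _ = 2 * Real.exp 1 * Real.exp (-(Real.log n / 2)) := by
        nth_rewrite 1 [h9]
        rw [mul_left_comm, ← Real.exp_add, mul_assoc, ← Real.exp_add]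
        congr 2
        ring

theorem pr_b {n : ℕ} (hn : 2 ≤ n) {p : ℝ} (h0 : 0 ≤ p) (h1 : p ≤ 1) (hM : 1 ≤ n * p) :
    Pr n p (fun G => ¬ Ev 2 G) ≤ Real.exp (Real.log n + 2 * Real.log (n * p) + 2 - n * p) := by
  have hn1 : (0 : ℝ) < n := by exact_mod_cast (by omega : 0 < n)
  have h2 : Pr n p (fun G => ¬ Ev 2 G) ≤ Pr n p (fun G => ∃ v, dv G v ≤ 2) := by
    refine Pr_mono h0 h1 fun G hG => ?_
    by_contra hcon
    push Not at hcon
    exact hG (ev_two G hn (fun v => hcon v))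
  refine h2.trans ((Pr_exists_le h0 h1 _ _ (fun v => deg_le_two h0 h1 v hM)).trans (le_of_eq ?_))
  have h9 : (n : ℝ) = Real.exp (Real.log n) := (Real.exp_log hn1).symm
  have h10 : ((n : ℝ) * p) ^ 2 = Real.exp (2 * Real.log (n * p)) := by
    rw [two_mul, Real.exp_add, Real.exp_log (by linarith), sq]
  rw [h10]
  nth_rewrite 1 [h9]
  rw [← Real.exp_add, ← Real.exp_add]
  congr 1
  ring

/-- the exponent in the case `k = 2` tends to `-∞` -/
theorem expo {p : ℕ → ℝ} (h : Tendsto (fun n : ℕ => n * p n - Real.log n - 2 * Real.log (Real.log n)) atTop atTop) :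
    Tendsto (fun n : ℕ => Real.log n + 2 * Real.log (n * p n) + 2 - n * p n) atTop atBot := by
  have hlogn : Tendsto (fun n : ℕ => Real.log (n : ℝ)) atTop atTop :=
    Real.tendsto_log_atTop.comp tendsto_natCast_atTop_atTop
  -- with w = n p - log n - 2 log log n the exponent is at most 2 log 4 + 2 log w - w + 2
  have hw : Tendsto (fun w : ℝ => 2 * Real.log w - w) atTop atBot := by
    have h1 : Tendsto (fun w : ℝ => Real.log w / w) atTop (𝓝 0) := by
      have := Real.isLittleO_log_id_atTop.tendsto_div_nhds_zero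
      simpa using this
    have h2 : Tendsto (fun w : ℝ => w * (2 * (Real.log w / w) - 1)) atTop atBot := by
      have h3 : Tendsto (fun w : ℝ => 2 * (Real.log w / w) - 1) atTop (𝓝 (2 * 0 - 1)) :=
        (h1.const_mul 2).sub_const 1
      have h4 : (2 * 0 - 1 : ℝ) < 0 := by norm_num
      exact tendsto_id.atTop_mul_neg h4 h3
    refine h2.congr' ?_
    filter_upwards [eventually_gt_atTop 0] with w hw
    field_simp
  have h1 : Tendsto (fun n : ℕ => (2 * Real.log 4 + 2) + (2 * Real.log (n * p n - Real.log n - 2 * Real.log (Real.log n)) -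
      (n * p n - Real.log n - 2 * Real.log (Real.log n)))) atTop atBot :=
    tendsto_atBot_add_const_left _ _ (hw.comp h)
  refine tendsto_atBot_mono' _ ?_ h1
  filter_upwards [hlogn.eventually_ge_atTop 1, h.eventually_ge_atTop 1] with n hn1 hn2
  exact expo_real hn1 rfl hn2

theorem main (k : ℕ) (hk : 2 ≤ k) (p : ℕ → ℝ) (hp : ∀ n, 0 ≤ p n ∧ p n ≤ 1)
    (h : (∀ᶠ n : ℕ in atTop, 100 * k ^ 2 * Real.log n ≤ n * p n) ∨
      (k = 2 ∧ Tendsto (fun n : ℕ => n * p n - Real.log n - 2 * Real.log (Real.log n)) atTop atTop)) :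
    Tendsto (fun n => Pr n (p n) (fun G => Ev k G)) atTop (𝓝 1) := by
  have hlogn : Tendsto (fun n : ℕ => Real.log (n : ℝ)) atTop atTop :=
    Real.tendsto_log_atTop.comp tendsto_natCast_atTop_atTop
  suffices hs : Tendsto (fun n => Pr n (p n) (fun G => ¬ Ev k G)) atTop (𝓝 0) by
    have := hs.const_sub 1
    rw [sub_zero] at this
    refine this.congr fun n => (Pr_compl _).symm
  rcases h with h | ⟨rfl, h⟩
  · have h1 : Tendsto (fun n : ℕ => 2 * Real.exp 1 * Real.exp (-(Real.log n / 2))) atTop (𝓝 0) := by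
      have h2 : Tendsto (fun n : ℕ => Real.exp (-(Real.log n / 2))) atTop (𝓝 0) :=
        Real.tendsto_exp_neg_atTop_nhds_zero.comp (hlogn.atTop_div_const (by norm_num))
      have := h2.const_mul (2 * Real.exp 1)
      rwa [mul_zero] at this
    refine squeeze_zero' (Eventually.of_forall fun n => Pr_nonneg (hp n).1 (hp n).2 _) ?_ h1
    filter_upwards [h, eventually_ge_atTop k, hlogn.eventually_ge_atTop ((2 * k + 1 : ℝ))] with n h2 h3 h4
    refine pr_a k hk h3 (hp n).1 (hp n).2 h2 ?_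
    have hk2 : (2 : ℝ) ≤ k := by exact_mod_cast hk
    have : (1 : ℝ) ≤ 100 * k ^ 2 := by nlinarith
    have h5 : Real.log n ≤ 100 * k ^ 2 * Real.log n := by
      have : 0 ≤ Real.log n := Real.log_natCast_nonneg n
      nlinarith
    linarith
  · have h1 : Tendsto (fun n : ℕ => Real.exp (Real.log n + 2 * Real.log (n * p n) + 2 - n * p n)) atTop (𝓝 0) :=
      Real.tendsto_exp_atBot.comp (expo h)
    refine squeeze_zero' (Eventually.of_forall fun n => Pr_nonneg (hp n).1 (hp n).2 _) ?_ h1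
    filter_upwards [eventually_ge_atTop 2, hlogn.eventually_ge_atTop 1, h.eventually_ge_atTop 0] with n h2 h3 h4
    refine pr_b h2 (hp n).1 (hp n).2 ?_
    have : 0 ≤ Real.log (Real.log n) := Real.log_nonneg h3
    linarith

end Pool.Agent.Q256.PC
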